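import Pool.Agent.Helper2.RG.St

/-!
# Module ALG of project RG (MP_76188c_nt)
-/

open scoped Pointwise NumberField DirectSum
open NumberField Pool.RG

namespace Pool.Agent.Helper63.RG

/-- Multiplication by `l`. -/
noncomputable abbrev ml (l : ℕ) (X : Type) [AddCommGroup X] : X →+ X := nsmulAddMonoidHom l

lemma ml_equiv {X Y : Type} [AddCommGroup X] [AddCommGroup Y] (e : X ≃+ Y) (l : ℕ) :
    (ml l X).range.index = (ml l Y).range.index ∧ Nat.card (ml l X).ker = Nat.card (ml l Y).ker := by
  constructor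
  · have h : (ml l X).range.map (e : X →+ Y) = (ml l Y).range := by
      ext y
      simp only [AddSubgroup.mem_map, AddMonoidHom.mem_range]
      constructor
      · rintro ⟨x, ⟨z, rfl⟩, rfl⟩
        exact ⟨e z, by simp⟩
      · rintro ⟨z, rfl⟩
        exact ⟨ml l X (e.symm z), ⟨e.symm z, rfl⟩, by simp⟩
    rw [← h, AddSubgroup.index_map_equiv]
  · refine Nat.card_congr (e.toEquiv.subtypeEquiv ?_)
    intro x
    simp only [AddMonoidHom.mem_ker, nsmulAddMonoidHom_apply]
    constructor
    · intro h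
      show l • e x = 0
      rw [← map_nsmul, h, map_zero]
    · intro h
      have h' : l • e x = 0 := h
      rw [← map_nsmul] at h'
      exact (map_eq_zero_iff e e.injective).1 h'

lemma ml_prod (X Y : Type) [AddCommGroup X] [AddCommGroup Y] (l : ℕ) :
    (ml l (X × Y)).range.index = (ml l X).range.index * (ml l Y).range.index ∧
      Nat.card (ml l (X × Y)).ker = Nat.card (ml l X).ker * Nat.card (ml l Y).ker := by
  constructor
  · have h : (ml l (X × Y)).range = (ml l X).range.prod (ml l Y).range := by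
      ext ⟨a, b⟩
      simp only [AddMonoidHom.mem_range, AddSubgroup.mem_prod, nsmulAddMonoidHom_apply, Prod.exists,
        Prod.smul_mk, Prod.mk.injEq]
      constructor
      · rintro ⟨x, y, h1, h2⟩
        exact ⟨⟨x, h1⟩, ⟨y, h2⟩⟩
      · rintro ⟨⟨x, h1⟩, ⟨y, h2⟩⟩
        exact ⟨x, y, h1, h2⟩
    rw [h, AddSubgroup.index_prod]
  · rw [← Nat.card_prod]
    refine Nat.card_congr ⟨fun z => (⟨z.1.1, ?_⟩, ⟨z.1.2, ?_⟩), fun z => ⟨(z.1.1, z.2.1), ?_⟩, fun z => ?_, fun z => ?_⟩
    · have := z.2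
      simp only [AddMonoidHom.mem_ker, nsmulAddMonoidHom_apply, Prod.ext_iff] at this ⊢
      exact this.1
    · have := z.2
      simp only [AddMonoidHom.mem_ker, nsmulAddMonoidHom_apply, Prod.ext_iff] at this ⊢
      exact this.2
    · have h1 := z.1.2
      have h2 := z.2.2
      simp only [AddMonoidHom.mem_ker, nsmulAddMonoidHom_apply, Prod.ext_iff] at h1 h2 ⊢
      exact ⟨h1, h2⟩
    · rfl
    · rfl

lemma ml_finite (X : Type) [AddCommGroup X] [Finite X] (l : ℕ) :
    (ml l X).range.index = Nat.card (ml l X).ker := by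
  have h1 : Nat.card (ml l X).range * (ml l X).range.index = Nat.card X := AddSubgroup.card_mul_index _
  have h2 : Nat.card (ml l X).ker * (ml l X).ker.index = Nat.card X := AddSubgroup.card_mul_index _
  rw [AddSubgroup.index_ker] at h2
  have h3 : 0 < Nat.card (ml l X).range := Nat.card_pos
  nlinarith [h1, h2, h3]

lemma ml_free (n l : ℕ) (hl : l ≠ 0) :
    (ml l (Fin n →₀ ℤ)).range.index = l ^ n ∧ Nat.card (ml l (Fin n →₀ ℤ)).ker = 1 := by
  have : NeZero l := ⟨hl⟩
  constructor
  · let f : (Fin n →₀ ℤ) →+ (Fin n → ZMod l) :=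
      { toFun := fun v i => ((v i : ℤ) : ZMod l)
        map_zero' := by ext i; simp
        map_add' := by intro a b; ext i; simp }
    have hf : Function.Surjective f := by
      intro w
      refine ⟨Finsupp.equivFunOnFinite.symm fun i => ((w i).val : ℤ), ?_⟩
      ext i
      show (((w i).val : ℤ) : ZMod l) = w i
      simp
    have hk : f.ker = (ml l (Fin n →₀ ℤ)).range := by
      ext v
      rw [AddMonoidHom.mem_ker, AddMonoidHom.mem_range]
      constructor
      · intro h
        have h' : ∀ i, (l : ℤ) ∣ v i := by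
          intro i
          have := congrFun h i
          exact (ZMod.intCast_zmod_eq_zero_iff_dvd _ _).1 this
        choose c hc using h'
        refine ⟨Finsupp.equivFunOnFinite.symm c, ?_⟩
        ext i
        simp [hc i]
      · rintro ⟨w, rfl⟩
        ext i
        show (((l • w) i : ℤ) : ZMod l) = 0
        simp
    rw [← hk, AddSubgroup.index_ker]
    have : f.range = ⊤ := f.range_eq_top.2 hf
    rw [this]
    simp
  · rw [Nat.card_eq_one_iff_unique]
    constructor
    · constructor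
      rintro ⟨a, ha⟩ ⟨b, hb⟩
      have : ∀ v : Fin n →₀ ℤ, v ∈ (ml l (Fin n →₀ ℤ)).ker → v = 0 := by
        intro v hv
        rw [AddMonoidHom.mem_ker, nsmulAddMonoidHom_apply] at hv
        ext i
        have := DFunLike.congr_fun hv i
        simp [hl] at this
        exact this
      rw [Subtype.mk.injEq, this a ha, this b hb]
    · exact ⟨0⟩

lemma finrank_finite (X : Type) [AddCommGroup X] [Finite X] : Module.finrank ℤ X = 0 := by
  apply Module.IsTorsion.finrank_eq_zero
  intro x
  refine ⟨⟨(Nat.card X : ℤ), ?_⟩, ?_⟩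
  · rw [mem_nonZeroDivisors_iff_ne_zero]
    exact_mod_cast Nat.card_pos.ne'
  · show (Nat.card X : ℤ) • x = 0
    rw [natCast_zsmul]
    exact card_nsmul_eq_zero'

lemma rn {X Y : Type} [AddCommGroup X] [AddCommGroup Y] [Module.Finite ℤ X] (f : X →+ Y) :
    Module.finrank ℤ f.range + Module.finrank ℤ f.ker = Module.finrank ℤ X := by
  have h := (LinearMap.ker f.toIntLinearMap).finrank_quotient_add_finrank
  have h1 : Module.finrank ℤ (LinearMap.ker f.toIntLinearMap) = Module.finrank ℤ f.ker := by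
    rfl
  have h2 : Module.finrank ℤ (X ⧸ LinearMap.ker f.toIntLinearMap) = Module.finrank ℤ f.range := by
    rw [(LinearMap.quotKerEquivRange f.toIntLinearMap).finrank_eq]
    rfl
  rw [← h, h1, h2]

lemma ml_main (X : Type) [AddCommGroup X] [Module.Finite ℤ X] (l : ℕ) (hl : l ≠ 0) :
    (ml l X).range.index = l ^ Module.finrank ℤ X * Nat.card (ml l X).ker ∧ Finite (ml l X).ker := by
  have : AddGroup.FG X := Module.Finite.iff_addGroup_fg.1 inferInstance
  obtain ⟨n, ι, _, p, hp, e, ⟨f⟩⟩ := AddCommGroup.equiv_free_prod_directSum_zmod X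
  have : ∀ i, NeZero (p i ^ e i) := fun i => ⟨pow_ne_zero _ (hp i).ne_zero⟩
  have hfin : Finite (⨁ i : ι, ZMod (p i ^ e i)) := by
    classical
    exact Finite.of_equiv (∀ i, ZMod (p i ^ e i)) DFinsupp.equivFunOnFintype.symm
  have hrank : Module.finrank ℤ X = n := by
    rw [f.toIntLinearEquiv.finrank_eq]
    have h := rn (AddMonoidHom.fst (Fin n →₀ ℤ) (⨁ i : ι, ZMod (p i ^ e i)))
    have h1 : Module.finrank ℤ (AddMonoidHom.fst (Fin n →₀ ℤ) (⨁ i : ι, ZMod (p i ^ e i))).ker = 0 := by
      have : Finite (AddMonoidHom.fst (Fin n →₀ ℤ) (⨁ i : ι, ZMod (p i ^ e i))).ker := by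
        refine Finite.of_injective (fun z => z.1.2) ?_
        rintro ⟨⟨a, b⟩, hab⟩ ⟨⟨c, d⟩, hcd⟩ hh
        have h1 : a = 0 := hab
        have h2 : c = 0 := hcd
        have h3 : b = d := hh
        subst h1 h2 h3
        rfl
      exact finrank_finite _
    have h2 : (AddMonoidHom.fst (Fin n →₀ ℤ) (⨁ i : ι, ZMod (p i ^ e i))).range = ⊤ :=
      AddMonoidHom.range_eq_top.2 Prod.fst_surjective
    rw [h1, h2, add_zero] at h
    rw [← h, (AddSubgroup.topEquiv (G := Fin n →₀ ℤ)).toIntLinearEquiv.finrank_eq]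
    simp
  obtain ⟨h1, h2⟩ := ml_equiv f l
  obtain ⟨h3, h4⟩ := ml_prod (Fin n →₀ ℤ) (⨁ i : ι, ZMod (p i ^ e i)) l
  obtain ⟨h5, h6⟩ := ml_free n l hl
  have h7 := ml_finite (⨁ i : ι, ZMod (p i ^ e i)) l
  have h8 : 0 < Nat.card (ml l (⨁ i : ι, ZMod (p i ^ e i))).ker := Nat.card_pos
  refine ⟨?_, ?_⟩
  · rw [h1, h2, h3, h4, h5, h6, h7, hrank, one_mul]
  · apply Nat.finite_of_card_ne_zero
    rw [h2, h4, h6, one_mul]
    exact h8.ne'

open Polynomial in
lemma poly1 (l : ℕ) (hl : l.Prime) : ∃ w : ℤ[X], (X - 1) ^ (l - 1) = (∑ i ∈ Finset.range l, X ^ i) + (l : ℤ[X]) * w := by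
  have : Fact l.Prime := ⟨hl⟩
  have h : ((X - 1) ^ (l - 1) - (∑ i ∈ Finset.range l, X ^ i) : ℤ[X]).map (Int.castRingHom (ZMod l)) = 0 := by
    rw [Polynomial.map_sub, Polynomial.map_pow, Polynomial.map_sub, Polynomial.map_sum]
    simp only [map_X, Polynomial.map_one, Polynomial.map_pow]
    rw [sub_eq_zero]
    have hX : (X - 1 : (ZMod l)[X]) ≠ 0 := by
      intro h
      have := congrArg (Polynomial.eval 0) h
      simp at this
    apply mul_right_cancel₀ hX
    rw [← pow_succ, Nat.sub_add_cancel hl.one_lt.le, geom_sum_mul, sub_pow_char, one_pow]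
  have h2 : (C (l : ℤ)) ∣ ((X - 1) ^ (l - 1) - (∑ i ∈ Finset.range l, X ^ i) : ℤ[X]) := by
    rw [Polynomial.C_dvd_iff_dvd_coeff]
    intro i
    have := congrArg (fun p => Polynomial.coeff p i) h
    simp only [coeff_map, coeff_zero] at this
    exact (ZMod.intCast_zmod_eq_zero_iff_dvd _ _).1 this
  obtain ⟨w, hw⟩ := h2
  refine ⟨w, ?_⟩
  have h3 : (C (l : ℤ) : ℤ[X]) = (l : ℤ[X]) := by simp
  rw [← h3, ← hw]
  ring

open Polynomial in
lemma poly2 (l : ℕ) : ∃ v : ℤ[X], (∑ i ∈ Finset.range l, X ^ i) = (l : ℤ[X]) + (X - 1) * v := by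
  have h : (X - C (1 : ℤ)) ∣ ((∑ i ∈ Finset.range l, X ^ i) - (l : ℤ[X])) := by
    rw [Polynomial.dvd_iff_isRoot]
    simp [Polynomial.IsRoot, Polynomial.eval_finsetSum]
  obtain ⟨v, hv⟩ := h
  refine ⟨v, ?_⟩
  rw [map_one] at hv
  rw [← hv]
  ring

/-- The index of the image of the powers of an endomorphism. -/
lemma pow_index {X : Type} [AddCommGroup X] (d : X →+ X) (j : ℕ) :
    ∀ f : X →+ X, (∀ x, f x = d^[j] x) → f.range.index ∣ d.range.index ^ j := by
  induction j with
  | zero =>
    intro f hf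
    have : f.range = ⊤ := by
      rw [AddMonoidHom.range_eq_top]
      intro x
      exact ⟨x, by rw [hf]; rfl⟩
    rw [this]
    simp
  | succ j ih =>
    intro f hf
    let g : X →+ X :=
      { toFun := d^[j]
        map_zero' := iterate_map_zero d j
        map_add' := fun a b => iterate_map_add d j a b }
    have h1 : f.range = g.range.map d := by
      ext x
      simp only [AddMonoidHom.mem_range, AddSubgroup.mem_map]
      constructor
      · rintro ⟨y, rfl⟩
        refine ⟨g y, ⟨y, rfl⟩, ?_⟩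
        rw [hf, Function.iterate_succ_apply']
        rfl
      · rintro ⟨_, ⟨y, rfl⟩, rfl⟩
        refine ⟨y, ?_⟩
        rw [hf, Function.iterate_succ_apply']
        rfl
    rw [h1, AddSubgroup.index_map, pow_succ]
    exact Nat.mul_dvd_mul ((AddSubgroup.index_dvd_of_le le_sup_left).trans (ih g fun x => rfl)) dvd_rfl

/-- The part of the argument inside the kernel of the norm. -/
lemma inner {X : Type} [AddCommGroup X] [Module.Finite ℤ X] (l r : ℕ) (hl : l.Prime) (d : X →+ X)
    (hr : Module.finrank ℤ X = (l - 1) * r) (h1 : ∀ x, ∃ y, l • x = d y) (h2 : ∀ x, ∃ y, d^[l-1] x = l • y) :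
    d.range.index ≠ 0 ∧ l ^ r ≤ d.range.index ∧ ((∃ x : X, x ≠ 0 ∧ l • x = 0) → l ^ (r + 1) ≤ d.range.index) := by
  obtain ⟨hm1, hm2⟩ := ml_main X l hl.ne_zero
  have hk : 0 < Nat.card (ml l X).ker := Nat.card_pos
  have hq : (ml l X).range.index ≠ 0 := by
    rw [hm1]
    exact mul_ne_zero (pow_ne_zero _ hl.ne_zero) hk.ne'
  have hle : (ml l X).range ≤ d.range := by
    rintro _ ⟨x, rfl⟩
    obtain ⟨y, hy⟩ := h1 x
    exact ⟨y, hy.symm⟩
  have hd : d.range.index ∣ (ml l X).range.index := AddSubgroup.index_dvd_of_le hle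
  have hd0 : d.range.index ≠ 0 := fun h => hq (by rw [h] at hd; exact zero_dvd_iff.1 hd)
  let g : X →+ X :=
    { toFun := d^[l-1]
      map_zero' := iterate_map_zero d _
      map_add' := fun a b => iterate_map_add d _ a b }
  have hgle : g.range ≤ (ml l X).range := by
    rintro _ ⟨x, rfl⟩
    obtain ⟨y, hy⟩ := h2 x
    exact ⟨y, hy.symm⟩
  have hg : (ml l X).range.index ∣ d.range.index ^ (l - 1) :=
    (AddSubgroup.index_dvd_of_le hgle).trans (pow_index d (l - 1) g fun x => rfl)
  -- the index is a power of `l`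
  obtain ⟨s, hs⟩ : ∃ s, d.range.index = l ^ s := by
    have : Fact l.Prime := ⟨hl⟩
    have : Finite (X ⧸ d.range) := Nat.finite_of_card_ne_zero hd0
    have hp : IsPGroup l (Multiplicative (X ⧸ d.range)) := by
      intro z
      refine ⟨1, ?_⟩
      obtain ⟨x, hx⟩ := QuotientAddGroup.mk_surjective (Multiplicative.toAdd z)
      have : l • (Multiplicative.toAdd z) = 0 := by
        rw [← hx, ← QuotientAddGroup.mk_nsmul, QuotientAddGroup.eq_zero_iff]
        exact hle ⟨x, rfl⟩
      rw [pow_one]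
      exact congrArg Multiplicative.ofAdd this
    obtain ⟨s, hs⟩ := hp.exists_card_eq
    exact ⟨s, hs⟩
  rw [hm1, hs, hr, ← pow_mul] at hg
  have hl1 : 1 ≤ l - 1 := by have := hl.two_le; omega
  refine ⟨hd0, ?_, ?_⟩
  · rw [hs]
    apply Nat.pow_le_pow_right hl.pos
    have : l ^ ((l - 1) * r) ∣ l ^ (s * (l - 1)) := (Dvd.intro _ rfl).trans hg
    rw [Nat.pow_dvd_pow_iff_le_right hl.one_lt] at this
    rw [mul_comm s] at this
    exact Nat.le_of_mul_le_mul_left this hl1
  · rintro ⟨x, hx0, hx⟩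
    rw [hs]
    apply Nat.pow_le_pow_right hl.pos
    have hk2 : l ∣ Nat.card (ml l X).ker := by
      have hxm : x ∈ (ml l X).ker := hx
      have : addOrderOf (⟨x, hxm⟩ : (ml l X).ker) = l := by
        have : Fact l.Prime := ⟨hl⟩
        have ha : l • (⟨x, hxm⟩ : (ml l X).ker) = 0 := Subtype.ext hx
        have hb : (⟨x, hxm⟩ : (ml l X).ker) ≠ 0 := fun h => hx0 (congrArg Subtype.val h)
        exact addOrderOf_eq_prime ha hb
      have h5 := addOrderOf_dvd_natCard (⟨x, hxm⟩ : (ml l X).ker)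
      rwa [this] at h5
    have : l ^ ((l - 1) * r + 1) ∣ l ^ (s * (l - 1)) := by
      rw [pow_succ]
      exact (Nat.mul_dvd_mul dvd_rfl hk2).trans hg
    rw [Nat.pow_dvd_pow_iff_le_right hl.one_lt] at this
    rw [mul_comm s] at this
    have h3 : (l - 1) * r < (l - 1) * s := by omega
    exact Nat.lt_of_mul_lt_mul_left h3

open Polynomial in
theorem addAlg (A : Type) [AddCommGroup A] [Module.Finite ℤ A] (l r : ℕ) (hl : l.Prime) (σ : A →+ A)
    (hσ : ∀ x, σ^[l] x = x) (hr : Module.finrank ℤ A + 1 = l * r) (E : AddSubgroup A) (N D : A →+ A)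
    (hE : ∀ x, x ∈ E ↔ σ x = x) (hN : ∀ x, N x = ∑ i ∈ Finset.range l, σ^[i] x) (hD : ∀ x, D x = σ x - x)
    (hEr : Module.finrank ℤ E + 1 = r) (hEl : Nat.card {x : E // l • x = 0} ≤ l) :
    N.range.relIndex E ≠ 0 ∧ D.range.relIndex N.ker ≠ 0 ∧ l * N.range.relIndex E ≤ D.range.relIndex N.ker := by
  -- the action of polynomials
  let S : Module.End ℤ A := σ.toIntLinearMap
  have hSi : ∀ (i : ℕ) (x : A), (S ^ i) x = σ^[i] x := by
    intro i x
    rw [Module.End.pow_apply]
    rfl
  have hNS : ∀ x, N x = aeval S (∑ i ∈ Finset.range l, X ^ i : ℤ[X]) x := by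
    intro x
    rw [hN, map_sum]
    simp only [map_pow, aeval_X, LinearMap.sum_apply]
    exact Finset.sum_congr rfl fun i _ => (hSi i x).symm
  have hDS : ∀ x, D x = aeval S (X - 1 : ℤ[X]) x := by
    intro x
    rw [hD, map_sub, aeval_X, map_one]
    rfl
  have hcomm : ∀ (p q : ℤ[X]) (x : A), aeval S p (aeval S q x) = aeval S q (aeval S p x) := by
    intro p q x
    rw [← Module.End.mul_apply, ← map_mul, mul_comm, map_mul, Module.End.mul_apply]
  have hker : ∀ (p : ℤ[X]) (x : A), x ∈ N.ker → aeval S p x ∈ N.ker := by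
    intro p x hx
    rw [AddMonoidHom.mem_ker] at hx ⊢
    rw [hNS, hcomm, ← hNS, hx, map_zero]
  have hDk : ∀ x, x ∈ N.ker → D x ∈ N.ker := fun x hx => by rw [hDS]; exact hker _ x hx
  -- `N D = 0`
  have hND : ∀ x, N (D x) = 0 := by
    intro x
    rw [hNS, hDS, ← Module.End.mul_apply, ← map_mul, geom_sum_mul, map_sub, map_pow, aeval_X, map_one]
    show (S ^ l) x - x = 0
    rw [hSi, hσ, sub_self]
  have hDN : ∀ x, N x ∈ E := by
    intro x
    rw [hE]
    have : D (N x) = 0 := by
      rw [hDS, hNS, hcomm, ← hNS, ← hDS, hND]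
    rw [hD] at this
    exact sub_eq_zero.1 this
  have hDE : D.ker = E := by
    ext x
    rw [AddMonoidHom.mem_ker, hD, sub_eq_zero, hE]
  have hNE : ∀ x ∈ E, N x = l • x := by
    intro x hx
    rw [hN]
    have : ∀ i, σ^[i] x = x := fun i => Function.iterate_fixed ((hE x).1 hx) i
    simp [this]
  have hNrE : N.range ≤ E := by
    rintro _ ⟨x, rfl⟩
    exact hDN x
  have hDrN : D.range ≤ N.ker := by
    rintro _ ⟨x, rfl⟩
    exact hND x
  have : Module.Finite ℤ E := inferInstanceAs (Module.Finite ℤ (AddSubgroup.toIntSubmodule E))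
  have : Module.Finite ℤ N.ker := inferInstanceAs (Module.Finite ℤ (AddSubgroup.toIntSubmodule N.ker))
  have : Module.Finite ℤ N.range := inferInstanceAs (Module.Finite ℤ (AddSubgroup.toIntSubmodule N.range))
  -- the index of `l E` in `E`
  obtain ⟨hm1, hm2⟩ := ml_main E l hl.ne_zero
  have hc : Nat.card {x : E // l • x = 0} = Nat.card (ml l E).ker := rfl
  set c := Nat.card (ml l E).ker with hcdef
  have hc0 : 0 < c := Nat.card_pos
  rw [hc] at hEl
  have hEN : (E.map N).relIndex E = (ml l E).range.index := by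
    rw [AddSubgroup.relIndex]
    congr 1
    ext ⟨x, hx⟩
    rw [AddSubgroup.mem_addSubgroupOf, AddSubgroup.mem_map, AddMonoidHom.mem_range]
    constructor
    · rintro ⟨y, hy, hyx⟩
      refine ⟨⟨y, hy⟩, ?_⟩
      ext
      exact (hNE y hy).symm.trans hyx
    · rintro ⟨⟨y, hy⟩, hyx⟩
      refine ⟨y, hy, ?_⟩
      rw [hNE y hy]
      exact congrArg Subtype.val hyx
  have hmul1 : (E.map N).relIndex N.range * N.range.relIndex E = (E.map N).relIndex E :=
    AddSubgroup.relIndex_mul_relIndex _ _ _ (AddSubgroup.map_le_range N E) hNrE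
  have hEN0 : (E.map N).relIndex E ≠ 0 := by
    rw [hEN, hm1]
    exact mul_ne_zero (pow_ne_zero _ hl.ne_zero) hc0.ne'
  have hx0 : N.range.relIndex E ≠ 0 := fun h => hEN0 (by rw [← hmul1, h, mul_zero])
  -- the rank of the kernel of the norm
  have hrank : Module.finrank ℤ N.ker = (l - 1) * r := by
    have h1 := rn N
    have h2 : Module.finrank ℤ N.range = Module.finrank ℤ E := by
      apply le_antisymm
      · exact LinearMap.finrank_le_finrank_of_injective (f := (AddSubgroup.inclusion hNrE).toIntLinearMap)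
          (AddSubgroup.inclusion_injective hNrE)
      · have h3 := rn (ml l E)
        have h4 := finrank_finite (ml l E).ker
        rw [h4, add_zero] at h3
        rw [← h3]
        let j : (ml l E).range →+ N.range :=
          { toFun := fun y => ⟨y.1.1, by
              obtain ⟨z, hz⟩ := y.2
              exact ⟨z.1, by rw [hNE z.1 z.2, ← hz]; rfl⟩⟩
            map_zero' := rfl
            map_add' := fun a b => rfl }
        refine LinearMap.finrank_le_finrank_of_injective (f := j.toIntLinearMap) ?_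
        intro a b hab
        have : a.1.1 = b.1.1 := congrArg (fun z : N.range => z.1) hab
        exact Subtype.ext (Subtype.ext this)
    have h5 : 1 ≤ l := hl.one_lt.le
    obtain ⟨m, rfl⟩ : ∃ m, l = m + 1 := ⟨l - 1, by omega⟩
    have h6 : (m + 1) * r = m * r + r := by ring
    rw [h6] at hr
    show _ = m * r
    omega
  -- inside the kernel of the norm
  let d : N.ker →+ N.ker :=
    { toFun := fun x => ⟨D x.1, hDk x.1 x.2⟩
      map_zero' := Subtype.ext (map_zero D)
      map_add' := fun a b => Subtype.ext (map_add D a.1 b.1) }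
  have hdi : ∀ (j : ℕ) (x : N.ker), (d^[j] x).1 = aeval S ((X - 1) ^ j : ℤ[X]) x.1 := by
    intro j
    induction j with
    | zero => intro x; simp
    | succ j ih =>
      intro x
      rw [Function.iterate_succ_apply, ih, pow_succ, map_mul, Module.End.mul_apply, ← hDS]
      rfl
  obtain ⟨w, hw⟩ := poly1 l hl
  obtain ⟨v, hv⟩ := poly2 l
  have hlS : ∀ x : A, aeval S (l : ℤ[X]) x = l • x := by
    intro x
    rw [map_natCast]
    exact Module.End.natCast_apply l x
  obtain ⟨hi0, hi1, hi2⟩ := inner l r hl d hrank (by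
    intro x
    refine ⟨⟨aeval S (-v) x.1, hker _ _ x.2⟩, ?_⟩
    ext
    show l • x.1 = D (aeval S (-v) x.1)
    have h1 := hNS x.1
    rw [x.2, hv, map_add, LinearMap.add_apply, hlS, map_mul, Module.End.mul_apply, ← hDS] at h1
    rw [map_neg, LinearMap.neg_apply, map_neg]
    exact eq_neg_of_add_eq_zero_left h1.symm) (by
    intro x
    refine ⟨⟨aeval S w x.1, hker _ _ x.2⟩, ?_⟩
    ext
    rw [hdi, hw, map_add, LinearMap.add_apply, ← hNS, map_mul, Module.End.mul_apply, hlS, x.2, zero_add]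
    rfl)
  have hdr : d.range.index = (N.ker.map D).relIndex N.ker := by
    rw [AddSubgroup.relIndex]
    congr 1
    ext ⟨x, hx⟩
    rw [AddSubgroup.mem_addSubgroupOf, AddSubgroup.mem_map, AddMonoidHom.mem_range]
    constructor
    · rintro ⟨⟨y, hy⟩, hyx⟩
      exact ⟨y, hy, congrArg Subtype.val hyx⟩
    · rintro ⟨y, hy, hyx⟩
      exact ⟨⟨y, hy⟩, Subtype.ext hyx⟩
  have hlow : l ^ r * c ≤ (N.ker.map D).relIndex N.ker := by
    rw [← hdr]
    rcases Nat.lt_or_ge 1 c with h | h
    · have : ∃ x : N.ker, x ≠ 0 ∧ l • x = 0 := by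
        have : Nontrivial (ml l E).ker := by
          rw [← Finite.one_lt_card_iff_nontrivial]
          exact h
        obtain ⟨x, hx⟩ := exists_ne (0 : (ml l E).ker)
        have hx1 : l • x.1.1 = 0 := congrArg Subtype.val x.2
        refine ⟨⟨x.1.1, ?_⟩, ?_, ?_⟩
        · rw [AddMonoidHom.mem_ker, hNE _ x.1.2, hx1]
        · intro h0
          apply hx
          exact Subtype.ext (Subtype.ext (congrArg (fun z : N.ker => z.1) h0))
        · ext
          exact hx1
      calc l ^ r * c ≤ l ^ r * l := Nat.mul_le_mul_left _ hEl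
        _ = l ^ (r + 1) := (pow_succ _ _).symm
        _ ≤ _ := hi2 this
    · calc l ^ r * c ≤ l ^ r * 1 := Nat.mul_le_mul_left _ h
        _ = l ^ r := mul_one _
        _ ≤ _ := hi1
  -- the comparison of the indices
  have hmul2 : (N.ker.map D).relIndex D.range * D.range.relIndex N.ker = (N.ker.map D).relIndex N.ker :=
    AddSubgroup.relIndex_mul_relIndex _ _ _ (AddSubgroup.map_le_range D N.ker) hDrN
  have hsame : (N.ker.map D).relIndex D.range = (E.map N).relIndex N.range := by
    rw [AddMonoidHom.range_eq_map D, AddMonoidHom.range_eq_map N, AddSubgroup.relIndex_map_map,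
      AddSubgroup.relIndex_map_map, hDE, top_sup_eq, top_sup_eq, sup_comm]
  rw [hdr] at hi0
  have hy0 : D.range.relIndex N.ker ≠ 0 := fun h => hi0 (by rw [← hmul2, h, mul_zero])
  refine ⟨hx0, hy0, ?_⟩
  obtain ⟨k, rfl⟩ : ∃ k, r = k + 1 := ⟨Module.finrank ℤ E, hEr.symm⟩
  have hk : Module.finrank ℤ E = k := by omega
  rw [hk] at hm1
  rw [hEN, hm1] at hmul1
  rw [← hmul2, hsame] at hlow
  set a := (E.map N).relIndex N.range
  set x := N.range.relIndex E
  set y := D.range.relIndex N.ker
  have h1 : (l ^ k * c) * (l * x) ≤ (l ^ k * c) * y := by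
    calc (l ^ k * c) * (l * x) = (l ^ (k + 1) * c) * x := by ring
      _ ≤ (a * y) * x := Nat.mul_le_mul_right _ hlow
      _ = (a * x) * y := by ring
      _ = _ := by rw [hmul1]
  exact Nat.le_of_mul_le_mul_left h1 (Nat.mul_pos (pow_pos hl.pos k) hc0)

theorem tAlg : StAlg := by
  intro M _ l r σ hl hM hσ hr E Nn D hE hN hD hEr hEl
  have : AddGroup.FG (Additive M) := by
    have := hM
    infer_instance
  have : Module.Finite ℤ (Additive M) := Module.Finite.iff_addGroup_fg.2 inferInstance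
  have hit : ∀ (i : ℕ) (x : M), (MonoidHom.toAdditive σ)^[i] (Additive.ofMul x) = Additive.ofMul ((σ^[i]) x) := by
    intro i
    induction i with
    | zero => intro x; rfl
    | succ i ih => intro x; rw [Function.iterate_succ_apply, Function.iterate_succ_apply]; exact ih (σ x)
  exact addAlg (Additive M) l r hl (MonoidHom.toAdditive σ) (fun x => (hit l x.toMul).trans (congrArg Additive.ofMul (hσ x.toMul)))
    hr (Subgroup.toAddSubgroup E) (MonoidHom.toAdditive Nn) (MonoidHom.toAdditive D) (fun x => hE x.toMul)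
    (fun x => by
      refine (congrArg Additive.ofMul (hN x.toMul)).trans ?_
      rw [ofMul_prod]
      exact Finset.sum_congr rfl fun i _ => (hit i x.toMul).symm)
    (fun x => congrArg Additive.ofMul (hD x.toMul)) hEr hEl

end Pool.Agent.Helper63.RG
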